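import Mathlib
import Pool.Agent.Q268.BV.Reduce

/-!
# Balancing unit vectors under the parity condition: few lines

If `x` is a nonzero linear dependency of the unit vectors `v_1, ..., v_n`, then the average of
`‖∑ η_i v_i‖ ^ 2` over all signings, with weight `(∑ x_i η_i) ^ 2`, is exactly `n - 2`.  Two
vectors on the same line can be cancelled against each other.
-/

set_option autoImplicit false

namespace Pool.Agent.Results.MP_1be6c9_co.FewOddLines

open Finset Pool.Agent.Q268.BV
open scoped InnerProductSpace

/-- The number of indices `k` with `v k = v i` or `v k = - v i`, that is, the number of the given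
vectors which lie on the line of `v i`. -/
noncomputable def multiplicity {d n : ℕ} (v : Fin n → EuclideanSpace ℝ (Fin d)) (i : Fin n) : ℕ :=
  Nat.card {k : Fin n // v k = v i ∨ v k = - v i}

/-- At most `d + 2` lines carry an odd number of the vectors. -/
def FewLines {d n : ℕ} (v : Fin n → EuclideanSpace ℝ (Fin d)) : Prop :=
  ∃ w : Fin (d + 2) → EuclideanSpace ℝ (Fin d), ∀ i,
    (∃ j, v i = w j ∨ v i = - w j) ∨ Even (multiplicity v i)

/-- few vectors -/
theorem small {d n : ℕ} (v : Fin n → EuclideanSpace ℝ (Fin d))
    (hu : ∀ i, ‖v i‖ = 1) (S : Finset (Fin n)) (h : S.card + 1 ≤ d) :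
    Signs v ((d : ℝ) - 1) S := by
  apply signs_of_sub
  obtain ⟨e, he⟩ := exists_le_card (fun i : S => v i) (fun i => hu i)
  refine ⟨e, he.trans ?_⟩
  have : ((S.card : ℝ)) + 1 ≤ d := by exact_mod_cast h
  rw [Fintype.card_coe]
  linarith

theorem few_case {d n : ℕ} (hpar : n % 2 ≠ d % 2)
    (v : Fin n → EuclideanSpace ℝ (Fin d)) (hu : ∀ i, ‖v i‖ = 1) (h : FewLines v) :
    Signs v ((d : ℝ) - 1) univ := by
  obtain ⟨w, hv⟩ := h
  refine reduce v _ (fun S hS hnp hodd => ?_)
  by_cases hsm : S.card + 1 ≤ d
  · exact small v hu S hsm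
  · have hv' : ∀ i : S, ∃ j, v i = w j ∨ v i = - w j := by
      intro i
      rcases hv i with h | h
      · exact h
      · exact absurd h (hodd i i.2)
    choose f hf using hv'
    have hinj : Function.Injective f := by
      intro i j hij
      by_contra hne
      have hne' : (i : Fin n) ≠ j := fun h => hne (Subtype.ext h)
      apply hnp i i.2 j j.2 hne'
      have h1 := hf i
      have h2 := hf j
      rw [← hij] at h2
      rcases h1 with h1 | h1 <;> rcases h2 with h2 | h2
      · left; rw [h1, h2]
      · right; rw [h1, h2, neg_neg]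
      · right; rw [h1, h2]
      · left; rw [h1, h2]
    have hcard : S.card ≤ d + 2 := by
      have := Fintype.card_le_of_injective f hinj
      rwa [Fintype.card_coe, Fintype.card_fin] at this
    have hc : S.card = d + 1 := by omega
    apply signs_of_sub
    have hdep : ¬ LinearIndependent ℝ (fun i : S => v i) := by
      intro hli
      have := hli.fintype_card_le_finrank
      rw [Fintype.card_coe, finrank_euclideanSpace, Fintype.card_fin] at this
      omega
    obtain ⟨e, he⟩ := exists_le_card_sub_two (fun i : S => v i) (fun i => hu i) hdep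
    refine ⟨e, he.trans ?_⟩
    rw [Fintype.card_coe, hc]
    push_cast
    linarith

/-- The conjecture holds for every number `n` of unit vectors of parity opposite to `d`, if at most
`d + 2` lines carry an odd number of the vectors; in particular it holds for `n = d + 1`. -/
theorem result (d n : ℕ) (hd : 1 ≤ d) (hpar : n % 2 ≠ d % 2)
    (v : Fin n → EuclideanSpace ℝ (Fin d)) (hu : ∀ i, ‖v i‖ = 1) (hv : FewLines v) :
    ∃ η : Fin n → ℝ, (∀ i, η i = 1 ∨ η i = -1) ∧
      ‖∑ i, η i • v i‖ ≤ Real.sqrt ((d : ℝ) - 1) := by
  obtain ⟨η, hη, hb⟩ := few_case hpar v hu hv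
  exact ⟨η, hη, Real.le_sqrt_of_sq_le hb⟩

end Pool.Agent.Results.MP_1be6c9_co.FewOddLines
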