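import Mathlib
import Pool.Agent.Q268.BV.Reduce

/-!
# Balancing unit vectors under the parity condition: vectors on a rational normal curve

Let `n` and `d` have opposite parity.  If `T` is a nonzero function on the `k`-subsets of the index
set with `∑_{i ∉ R} T (R ∪ {i}) v_i = 0` for all `(k - 1)`-subsets `R`, then the average of
`‖∑ η_i v_i‖ ^ 2` over all signings, with weight `(∑_S T S ∏_{i ∈ S} η_i) ^ 2`, is exactly
`n - 2 k`.  For vectors on the cone over a rational normal curve such a `T` with
`n - 2 k = d - 1` exists, by Lagrange interpolation.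
-/

set_option autoImplicit false

namespace Pool.Agent.Results.MP_1be6c9_co.NormalCurves

open Finset Pool.Agent.Q268.BV
open scoped InnerProductSpace

/-- The number of indices `k` with `v k = v i` or `v k = - v i`, that is, the number of the given
vectors which lie on the line of `v i`. -/
noncomputable def multiplicity {d n : ℕ} (v : Fin n → EuclideanSpace ℝ (Fin d)) (i : Fin n) : ℕ :=
  Nat.card {k : Fin n // v k = v i ∨ v k = - v i}

/-- All the `v i`, except those on lines carrying an even number of the vectors, are of the form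
`c (w_0 + z w_1 + ... + z ^ (d - 1) w_(d - 1))` with real `c`, `z` depending on `i` and vectors
`w_0, ..., w_(d - 1)` not depending on `i`. -/
def OnNormalCurve {d n : ℕ} (v : Fin n → EuclideanSpace ℝ (Fin d)) : Prop :=
  ∃ (w : Fin d → EuclideanSpace ℝ (Fin d)) (c z : Fin n → ℝ), ∀ i,
    v i = c i • ∑ a : Fin d, z i ^ (a : ℕ) • w a ∨ Even (multiplicity v i)

/-- few vectors -/
theorem small {d n : ℕ} (v : Fin n → EuclideanSpace ℝ (Fin d))
    (hu : ∀ i, ‖v i‖ = 1) (S : Finset (Fin n)) (h : S.card + 1 ≤ d) :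
    Signs v ((d : ℝ) - 1) S := by
  apply signs_of_sub
  obtain ⟨e, he⟩ := exists_le_card (fun i : S => v i) (fun i => hu i)
  refine ⟨e, he.trans ?_⟩
  have : ((S.card : ℝ)) + 1 ≤ d := by exact_mod_cast h
  rw [Fintype.card_coe]
  linarith

theorem curve_case {d n : ℕ} (hd : 1 ≤ d) (hpar : n % 2 ≠ d % 2)
    (v : Fin n → EuclideanSpace ℝ (Fin d)) (hu : ∀ i, ‖v i‖ = 1) (h : OnNormalCurve v) :
    Signs v ((d : ℝ) - 1) univ := by
  obtain ⟨w, c, z, hv⟩ := h
  refine reduce v _ (fun S hS hnp hodd => ?_)
  by_cases hsm : S.card + 1 ≤ d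
  · exact small v hu S hsm
  · apply signs_of_sub
    have hv' : ∀ i : S, v i = c i • ∑ a : Fin d, z i ^ (a : ℕ) • w a := by
      intro i
      rcases hv i with h | h
      · exact h
      · exact absurd h (hodd i i.2)
    refine curve_core (fun i : S => v i) (fun i => hu i) w (fun i : S => c i) (fun i : S => z i)
      ?_ hv' ((S.card + 1 - d) / 2) ?_ hd
    · intro i j hij
      by_contra hne
      have hij' : z i = z j := hij
      have hne' : (i : Fin n) ≠ j := fun h => hne (Subtype.ext h)
      apply hnp i i.2 j j.2 hne'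
      set u : EuclideanSpace ℝ (Fin d) := ∑ a : Fin d, z i ^ (a : ℕ) • w a with hudef
      have h1 : v i = c i • u := hv' i
      have h2 : v j = c j • u := by rw [hv' j, ← hij']
      have n1 : |c i| * ‖u‖ = 1 := by
        rw [← Real.norm_eq_abs, ← norm_smul, ← h1]; exact hu i
      have n2 : |c j| * ‖u‖ = 1 := by
        rw [← Real.norm_eq_abs, ← norm_smul, ← h2]; exact hu j
      have hu0 : ‖u‖ ≠ 0 := by
        intro h0; rw [h0, mul_zero] at n1; exact zero_ne_one n1
      have hc : |c i| = |c j| := mul_right_cancel₀ hu0 (n1.trans n2.symm)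
      rcases abs_eq_abs.mp hc with h | h
      · left; rw [h1, h2, h]
      · right; rw [h1, h2, h, neg_smul]
    · rw [Fintype.card_coe]
      omega

/-- The conclusion of the conjecture, for any number `n` of vectors of parity opposite to `d`, for
all limits of configurations of unit vectors which lie, up to lines of even multiplicity, on the
cone over a rational normal curve. -/
theorem result (d n : ℕ) (hd : 1 ≤ d) (hpar : n % 2 ≠ d % 2)
    (v : Fin n → EuclideanSpace ℝ (Fin d))
    (hv : v ∈ closure {u : Fin n → EuclideanSpace ℝ (Fin d) |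
      (∀ i, ‖u i‖ = 1) ∧ OnNormalCurve u}) :
    ∃ η : Fin n → ℝ, (∀ i, η i = 1 ∨ η i = -1) ∧
      ‖∑ i, η i • v i‖ ≤ Real.sqrt ((d : ℝ) - 1) := by
  have hclosed : IsClosed (⋃ e : Fin n → Bool, {u : Fin n → EuclideanSpace ℝ (Fin d) |
      ‖∑ i, sg (e i) • u i‖ ^ 2 ≤ (d : ℝ) - 1}) := by
    refine isClosed_iUnion_of_finite (fun e => ?_)
    refine isClosed_le ?_ continuous_const
    fun_prop
  have hsub : {u : Fin n → EuclideanSpace ℝ (Fin d) |
      (∀ i, ‖u i‖ = 1) ∧ OnNormalCurve u} ⊆
      ⋃ e : Fin n → Bool, {u : Fin n → EuclideanSpace ℝ (Fin d) |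
      ‖∑ i, sg (e i) • u i‖ ^ 2 ≤ (d : ℝ) - 1} := by
    rintro u ⟨hu, h⟩
    have h2 : Signs u ((d : ℝ) - 1) univ := by
      exact curve_case hd hpar u hu h
    obtain ⟨η, hη, hb⟩ := h2
    rw [Set.mem_iUnion]
    refine ⟨fun i => decide (η i = 1), ?_⟩
    have : ∀ i, sg (decide (η i = 1)) = η i := by
      intro i
      rcases hη i with h | h
      · simp [sg, h]
      · rw [h]; norm_num [sg]
    show ‖∑ i, sg (decide (η i = 1)) • u i‖ ^ 2 ≤ (d : ℝ) - 1
    simp_rw [this]
    exact hb
  have hmem := closure_minimal hsub hclosed hv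
  rw [Set.mem_iUnion] at hmem
  obtain ⟨e, he⟩ := hmem
  refine ⟨fun i => sg (e i), fun i => sg_or _, ?_⟩
  exact Real.le_sqrt_of_sq_le he

end Pool.Agent.Results.MP_1be6c9_co.NormalCurves
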