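import Mathlib
import Pool.Agent.Q268.BV.Half

/-!
# Balancing unit vectors under the parity condition: a bound in all cases

For all `d`, all `n` of parity opposite to `d` and all unit vectors `v_1, ..., v_n` in `ℝ^d` some
signing satisfies `‖∑ η_i v_i‖ ^ 2 ≤ d - 1 / 2`.
-/

set_option autoImplicit false

namespace Pool.Agent.Results.MP_1be6c9_co.ParityGain

open Finset Pool.Agent.Q268.BV

theorem result (d n : ℕ) (_hd : 1 ≤ d) (hpar : n % 2 ≠ d % 2)
    (v : Fin n → EuclideanSpace ℝ (Fin d)) (hv : ∀ i, ‖v i‖ = 1) :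
    ∃ η : Fin n → ℝ, (∀ i, η i = 1 ∨ η i = -1) ∧
      ‖∑ i, η i • v i‖ ≤ Real.sqrt ((d : ℝ) - 1 / 2) := by
  have h := half_gain v hv (by rw [Fintype.card_fin, finrank_euclideanSpace_fin]; exact hpar)
  rw [finrank_euclideanSpace_fin] at h
  unfold Low at h
  push_neg at h
  obtain ⟨η, hη, hb⟩ := h
  exact ⟨η, hη, Real.le_sqrt_of_sq_le hb⟩

end Pool.Agent.Results.MP_1be6c9_co.ParityGain
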